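import Pool.Agent.H66.AV.TF

/-!
# The product of two games (row TPR of the board avh)
-/

set_option autoImplicit false

namespace Pool.Agent.H16.AVH

open Finset Pool.Agent.H6.NB Pool.Agent.H66.IQ Pool.Agent.H66.AV

theorem tpr_ev_nonneg {V : Type} (t : Tr V) (y : V → Bool) : 0 ≤ t.ev y := by
  induction t with
  | lf a =>
    show 0 ≤ bi (a.f y)
    unfold bi
    split_ifs
    · exact zero_le_one
    · exact le_rfl
  | av l r hl hr =>
    show 0 ≤ (l.ev y + r.ev y) / 2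
    linarith
  | ch l r hl hr =>
    show 0 ≤ max (l.ev y) (r.ev y)
    exact hl.trans (le_max_left _ _)

theorem tpr_bi (a b : Bool) : bi (a && b) = bi a * bi b := by
  cases a <;> cases b <;> simp [bi]

open Classical in
/-- the product of two leaves -/
noncomputable def tprLf {V : Type} (a₁ a₂ : Lf V) : Lf V where
  f := fun y => a₁.f y && a₂.f y
  Q := fun y => a₁.Q y ∪ a₂.Q y
  path := by
    intro y y' h
    obtain ⟨h1, h2⟩ := a₁.path y y' fun v hv => h v (Finset.mem_union_left _ hv)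
    obtain ⟨h3, h4⟩ := a₂.path y y' fun v hv => h v (Finset.mem_union_right _ hv)
    exact ⟨by rw [h1, h3], by rw [h2, h4]⟩

theorem tpr_cl (hCLB : T_CLB) {V : Type} {S d : ℕ} (hS : 2 ≤ S) {f₁ f₂ : (V → Bool) → Bool}
    (h1 : Cl V S d f₁) (h2 : Cl V S d f₂) : Cl V S (d + 2) fun y => f₁ y && f₂ y := by
  obtain ⟨-, -, h3, -, -⟩ := hCLB V S hS
  have h4 : Cl V S (d + 1) fun y => !(f₁ y && f₂ y) := by
    refine h3 d Bool (fun i => if i then f₁ else f₂) (fun _ => false) _ (by simpa using hS) ?_ ?_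
    · intro i
      cases i
      · exact h2
      · exact h1
    · intro y
      constructor
      · intro h
        by_cases hf : f₁ y = false
        · exact ⟨true, hf⟩
        · by_cases hg : f₂ y = false
          · exact ⟨false, hg⟩
          · simp only [Bool.not_eq_false] at hf hg
            simp [hf, hg] at h
      · rintro ⟨i, hi⟩
        cases i
        · have : f₂ y = false := hi
          simp [this]
        · have : f₁ y = false := hi
          simp [this]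
  refine h3 (d + 1) Unit (fun _ => fun y => !(f₁ y && f₂ y)) (fun _ => false) _
    (by simp; omega) (fun _ => h4) ?_
  intro y
  constructor
  · intro h
    refine ⟨(), ?_⟩
    simp only [h, Bool.not_true]
  · rintro ⟨-, hi⟩
    simpa using hi

theorem tpr_lf (hCLB : T_CLB) {V : Type} (a₁ : Lf V) (t₂ : Tr V) : ∃ t : Tr V, t.dp ≤ t₂.dp ∧
    (∀ S d, 2 ≤ S → Cl V S d a₁.f → t₂.Cb S d → t.Cb S (d + 2)) ∧
    ∀ y, t.ev y = bi (a₁.f y) * t₂.ev y := by
  induction t₂ with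
  | lf a₂ =>
    refine ⟨.lf (tprLf a₁ a₂), le_rfl, fun S d hS h1 h2 => ?_, fun y => ?_⟩
    · exact tpr_cl hCLB hS h1 h2
    · exact tpr_bi _ _
  | av l r hl hr =>
    obtain ⟨tl, hl1, hl2, hl3⟩ := hl
    obtain ⟨tr, hr1, hr2, hr3⟩ := hr
    refine ⟨.av tl tr, ?_, fun S d hS h1 h2 => ⟨hl2 S d hS h1 h2.1, hr2 S d hS h1 h2.2⟩,
      fun y => ?_⟩
    · show max tl.dp tr.dp + 1 ≤ max l.dp r.dp + 1
      omega
    · show (tl.ev y + tr.ev y) / 2 = bi (a₁.f y) * ((l.ev y + r.ev y) / 2)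
      rw [hl3, hr3]
      ring
  | ch l r hl hr =>
    obtain ⟨tl, hl1, hl2, hl3⟩ := hl
    obtain ⟨tr, hr1, hr2, hr3⟩ := hr
    refine ⟨.ch tl tr, ?_, fun S d hS h1 h2 => ⟨hl2 S d hS h1 h2.1, hr2 S d hS h1 h2.2⟩,
      fun y => ?_⟩
    · show max tl.dp tr.dp + 1 ≤ max l.dp r.dp + 1
      omega
    · show max (tl.ev y) (tr.ev y) = bi (a₁.f y) * max (l.ev y) (r.ev y)
      have h0 : 0 ≤ bi (a₁.f y) := tpr_ev_nonneg (.lf a₁) y
      rw [hl3, hr3, mul_max_of_nonneg _ _ h0]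

theorem pf_TPR (hCLB : Pool.Agent.H6.NB.T_CLB) : T_TPR := by
  intro V _ t₁ t₂
  induction t₁ with
  | lf a₁ =>
    obtain ⟨t, h1, h2, h3⟩ := tpr_lf hCLB a₁ t₂
    refine ⟨t, ?_, fun S d hS h4 h5 => h2 S d hS h4 h5, h3⟩
    exact h1.trans (Nat.le_add_left _ _)
  | av l r hl hr =>
    obtain ⟨tl, hl1, hl2, hl3⟩ := hl
    obtain ⟨tr, hr1, hr2, hr3⟩ := hr
    refine ⟨.av tl tr, ?_, fun S d hS h1 h2 => ⟨hl2 S d hS h1.1 h2, hr2 S d hS h1.2 h2⟩,
      fun y => ?_⟩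
    · show max tl.dp tr.dp + 1 ≤ (max l.dp r.dp + 1) + t₂.dp
      omega
    · show (tl.ev y + tr.ev y) / 2 = (l.ev y + r.ev y) / 2 * t₂.ev y
      rw [hl3, hr3]
      ring
  | ch l r hl hr =>
    obtain ⟨tl, hl1, hl2, hl3⟩ := hl
    obtain ⟨tr, hr1, hr2, hr3⟩ := hr
    refine ⟨.ch tl tr, ?_, fun S d hS h1 h2 => ⟨hl2 S d hS h1.1 h2, hr2 S d hS h1.2 h2⟩,
      fun y => ?_⟩
    · show max tl.dp tr.dp + 1 ≤ (max l.dp r.dp + 1) + t₂.dp
      omega
    · show max (tl.ev y) (tr.ev y) = max (l.ev y) (r.ev y) * t₂.ev y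
      rw [hl3, hr3, max_mul_of_nonneg _ _ (tpr_ev_nonneg t₂ y)]

end Pool.Agent.H16.AVH
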